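import Pool.Agent.NH44.VR.Main

/-!
# The homology of `VR(ℤ ^ n; r)` and of `VR({0, 1} ^ n; r)`: a counterexample in dimension ten

The definitions are in `Pool.Agent.NH44.VR.Defs`.

Put `n = 10`, `r = 8`, `i = 63`.

* `VR(ℤ ^ 10; 8)` has a nonzero class in degree 63. In `{0, 2} × {0, 1} ^ 9` there are 64 pairs of
  points at distance 9 such that all other distances are at most 8; they span a cross-polytope of
  dimension 63. One of its facets is a maximal simplex of `VR(ℤ ^ 10; 8)`: no further point of
  `ℤ ^ 10` has distance at most 8 from all its points. So the fundamental cycle is not a boundary.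
  The points are `(0, v)` with the syndrome of `v` in `{0, 3} ∪ ({0, 3} + 6)` and `(2, v)` with the
  syndrome in `{25, 26} ∪ ({25, 26} + 6)`, for the binary code of length nine with the columns
  `1, 2, 4, 8, 16, 6, 13, 7, 21` (binary vectors of length five written as numbers). The two sets
  have distance three and their selected halves cover `{0, 1} ^ 9` with radius one.
* The reduced homology of `VR({0, 1} ^ 10; 8)` vanishes in all degrees up to 64. There are 66 words
  of length ten whose pairwise distances are between 3 and 8 (from the blocks of the Steiner system
  `S(5, 6, 12)`), so every word has distance at least 9 from at most one of them, and a flag complex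
  with such a family of 66 pairwise adjacent vertices has no reduced homology in degrees up to 64.
-/

set_option autoImplicit false

namespace Pool.Agent.Results.MP_cf6741_gt.DimensionTen

open Pool.Agent.NH44.VR

/-- The reduced homology group of `VR(ℤ ^ 10; 8)` in degree 63 is not zero, while the reduced
homology groups of `VR({0, 1} ^ 10; 8)` in all degrees up to 64 are zero. So the equivalence asked
for in the problem is false. -/
theorem result :
    HomologyNonzero (vietorisRips (Set.univ : Set (Pt 10)) 8) 63 ∧
    (∀ i ≤ 64, ¬ HomologyNonzero (vietorisRips (cube 10) 8) i) ∧
    ¬ ∀ (n i : ℕ) (r : ℝ), 1 ≤ n → 0 ≤ r →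
      (HomologyNonzero (vietorisRips (Set.univ : Set (Pt n)) r) i ↔
        HomologyNonzero (vietorisRips (cube n) r) i) := by
  refine ⟨nonzero, zero, fun h => ?_⟩
  exact zero 63 (by norm_num) ((h 10 63 8 (by norm_num) (by norm_num)).1 nonzero)

end Pool.Agent.Results.MP_cf6741_gt.DimensionTen
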